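import Mathlib
import Pool.Agent.H29.LGrp

set_option autoImplicit false

namespace Pool.Agent.Results.MP_98d06d_al.SupEmbed

universe u

/-- the order is invariant under multiplication on both sides -/
def BiInvariant (G : Type u) [Group G] [PartialOrder G] : Prop :=
  ∀ a b c : G, a ≤ b → c * a ≤ c * b ∧ a * c ≤ b * c

/-- a right order: a total order invariant under right multiplication -/
def IsRightOrder {G : Type u} [Group G] (r : G → G → Prop) : Prop :=
  IsLinearOrder G r ∧ ∀ a b c : G, r a b → r (a * c) (b * c)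

open Pool.Agent.H29.LGrp

def Syn {G : Type u} [Group G] (_r : {r : G → G → Prop // IsRightOrder r}) : Type u := G

def Syn.val {G : Type u} [Group G] {r : {r : G → G → Prop // IsRightOrder r}} (x : Syn r) : G := x

def Syn.of {G : Type u} [Group G] (r : {r : G → G → Prop // IsRightOrder r}) (x : G) : Syn r := x

noncomputable instance {G : Type u} [Group G] (r : {r : G → G → Prop // IsRightOrder r}) :
    LinearOrder (Syn r) where
  le x y := r.1 y.val⁻¹ x.val⁻¹
  le_refl x := (r.2.1.total x.val⁻¹ x.val⁻¹).elim id id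
  le_trans _ _ _ h1 h2 := r.2.1.trans _ _ _ h2 h1
  le_antisymm _ _ h1 h2 := inv_injective (G := G) (r.2.1.antisymm _ _ h2 h1)
  le_total x y := r.2.1.total y.val⁻¹ x.val⁻¹
  toDecidableLE := Classical.decRel _

lemma syn_mono {G : Type u} [Group G] (r : {r : G → G → Prop // IsRightOrder r}) (g : G)
    {x y : Syn r} (h : x ≤ y) : Syn.of r (g * x.val) ≤ Syn.of r (g * y.val) := by
  show r.1 (g * y.val)⁻¹ (g * x.val)⁻¹
  rw [mul_inv_rev, mul_inv_rev]
  exact r.2.2 _ _ _ h

noncomputable def lmul {G : Type u} [Group G] (r : {r : G → G → Prop // IsRightOrder r}) :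
    G →* Aut (Syn r) where
  toFun g :=
    { toFun := fun x => Syn.of r (g * x.val)
      invFun := fun x => Syn.of r (g⁻¹ * x.val)
      left_inv := fun x => inv_mul_cancel_left g x.val
      right_inv := fun x => mul_inv_cancel_left g x.val
      map_rel_iff' := fun {x y} => ⟨fun h => by
        have := syn_mono r g⁻¹ h
        change Syn.of r (g⁻¹ * (g * x.val)) ≤ Syn.of r (g⁻¹ * (g * y.val)) at this
        rwa [inv_mul_cancel_left, inv_mul_cancel_left] at this, syn_mono r g⟩ }
  map_one' := OrderIso.ext (funext fun x => one_mul x.val)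
  map_mul' a b := OrderIso.ext (funext fun x => mul_assoc a b x.val)

theorem result (G : Type u) [Group G] [PartialOrder G] (hG : BiInvariant G)
    (R : Set (G → G → Prop)) (hR : ∀ r ∈ R, IsRightOrder r)
    (hint : ∀ a b : G, a ≤ b ↔ ∀ r ∈ R, r a b) :
    ∃ (H : Type u) (_ : Group H) (_ : Lattice H), BiInvariant H ∧
      ∃ φ : G →* H, Function.Injective φ ∧ (∀ a b : G, a ≤ b ↔ φ a ≤ φ b) ∧
        (∀ (S : Set G) (s : G), IsLUB S s → IsLUB (φ '' S) (φ s)) ∧
        (∀ (S : Set G) (s : G), IsGLB S s → IsGLB (φ '' S) (φ s)) := by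
  have : MulLeftMono G := ⟨fun c a b h => (hG a b c h).1⟩
  have : MulRightMono G := ⟨fun c a b h => (hG a b c h).2⟩
  let F := ∀ r : R, Aut (Syn ⟨r.1, hR r.1 r.2⟩)
  let φ : G →* F := MonoidHom.pi fun r => lmul ⟨r.1, hR r.1 r.2⟩
  have : MulLeftMono F := ⟨fun c a b h r => mul_le_mul_right (h r) (c r)⟩
  have : MulRightMono F := ⟨fun c a b h r => mul_le_mul_left (h r) (c r)⟩
  have hφ : ∀ a b, φ a ≤ φ b ↔ a ≤ b := by
    intro a b
    constructor
    · intro h
      rw [← inv_le_inv_iff, hint]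
      intro r hr
      have h1 := h ⟨r, hr⟩ (Syn.of _ 1)
      change r (b * 1)⁻¹ (a * 1)⁻¹ at h1
      rwa [mul_one, mul_one] at h1
    · intro h r x
      show r.1 (b * x.val)⁻¹ (a * x.val)⁻¹
      exact (hint _ _).1 (inv_le_inv_iff.2 (hG a b x.val h).2) r.1 r.2
  refine ⟨Q φ, inferInstance, inferInstance,
    fun a b c h => ⟨mul_le_mul_right h c, mul_le_mul_left h c⟩, psi φ, ?_,
    fun a b => (psi_le hφ a b).symm, psi_lub hφ, psi_glb hφ⟩
  intro a b h
  exact le_antisymm ((psi_le hφ a b).1 h.le) ((psi_le hφ b a).1 h.ge)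

end Pool.Agent.Results.MP_98d06d_al.SupEmbed
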